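import Pool.Agent.Q8.WCO.Main

set_option autoImplicit false

namespace Q8.WCO

open scoped ComplexConjugate InnerProductSpace
open ContinuousLinearMap

/-- The data of the theorem. -/
structure Hyp (a b c d : ℂ) (ψ : ℂ → ℂ) (W : H2 →L[ℂ] H2) : Prop where
  det : a * d - b * c ≠ 0
  den : ∀ z : ℂ, ‖z‖ < 1 → c * z + d ≠ 0
  self : ∀ z : ℂ, ‖z‖ < 1 → ‖(a * z + b) / (c * z + d)‖ < 1
  wco : IsWCO W ψ (fun z => (a * z + b) / (c * z + d))
  normal : W * adjoint W = adjoint W * W

variable {a b c d : ℂ} {ψ : ℂ → ℂ} {W : H2 →L[ℂ] H2}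

theorem adj_K (H : Hyp a b c d ψ W) (z : ℂ) (hz : ‖z‖ < 1) :
    adjoint W (K z hz) = conj (ψ z) • K ((a * z + b) / (c * z + d)) (H.self z hz) := by
  refine ext_inner_right ℂ fun f => ?_
  rw [adjoint_inner_left, inner_K, H.wco f z hz, inner_smul_left, inner_K, Complex.conj_conj]

theorem inner_W (H : Hyp a b c d ψ W) (x y : H2) :
    ⟪W x, W y⟫_ℂ = ⟪adjoint W x, adjoint W y⟫_ℂ := by
  have h1 : ⟪W x, W y⟫_ℂ = ⟪x, (adjoint W * W) y⟫_ℂ := by
    rw [mul_apply_eq_comp, adjoint_inner_right]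
  rw [h1, ← H.normal, mul_apply_eq_comp, ← adjoint_inner_left]

theorem QQ_ne (H : Hyp a b c d ψ W) {z t : ℂ} (hz : ‖z‖ < 1) (ht : ‖t‖ < 1) :
    QQ a b c d z t ≠ 0 := by
  intro h0
  have ht' : ‖conj t‖ < 1 := by rwa [RCLike.norm_conj]
  have n1 := H.den z hz
  have n2 := H.den _ ht'
  have n2' : conj c * t + conj d ≠ 0 := by
    have := (_root_.map_ne_zero (starRingEnd ℂ)).2 n2
    rwa [map_add, map_mul, Complex.conj_conj] at this
  have s1 := H.self z hz
  have s2 := H.self _ ht'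
  have e : ((a * z + b) / (c * z + d)) * conj ((a * conj t + b) / (c * conj t + d)) = 1 := by
    rw [map_div₀, map_add, map_mul, map_add, map_mul, Complex.conj_conj]
    rw [QQ] at h0
    rw [div_mul_div_comm, div_eq_one_iff_eq (mul_ne_zero n1 n2')]
    linear_combination -h0
  have h2 := congrArg norm e
  rw [norm_mul, RCLike.norm_conj, norm_one] at h2
  have h3 := norm_nonneg ((a * z + b) / (c * z + d))
  have h4 := norm_nonneg ((a * conj t + b) / (c * conj t + d))
  nlinarith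

theorem Fval (H : Hyp a b c d ψ W) {z w : ℂ} (hz : ‖z‖ < 1) (hw : ‖w‖ < 1) :
    ⟪W (K z hz), W (K w hw)⟫_ℂ =
      (ψ z * (c * z + d)) * conj (ψ w * (c * w + d)) / QQ a b c d z (conj w) := by
  have hw' : ‖conj w‖ < 1 := by rwa [RCLike.norm_conj]
  have hQ := QQ_ne H hz hw'
  have n1 := H.den z hz
  have n2 := (_root_.map_ne_zero (starRingEnd ℂ)).2 (H.den w hw)
  rw [inner_W H, adj_K H, adj_K H, inner_smul_left, inner_smul_right, inner_K,
    ev_K _ _ (H.self z hz), Complex.conj_conj, map_mul, map_div₀]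
  have e : 1 - conj (a * w + b) / conj (c * w + d) * ((a * z + b) / (c * z + d)) =
      QQ a b c d z (conj w) / ((c * z + d) * conj (c * w + d)) := by
    rw [eq_div_iff (mul_ne_zero n1 n2), sub_mul, div_mul_div_comm, div_mul_eq_mul_div,
      mul_div_assoc, mul_comm (c * z + d), div_self (mul_ne_zero n2 n1), QQ]
    simp only [map_add, map_mul]
    ring
  rw [e, inv_div]
  field_simp

theorem shift_id (H : Hyp a b c d ψ W) {w : ℂ} (hw : ‖w‖ < 1) (h0 : ‖(0 : ℂ)‖ < 1) (z : ℂ)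
    (hz : ‖z‖ < 1) :
    ev (W ((d - b * conj w) • K w hw - d • K 0 h0)) z =
      z * ev (W ((a * conj w - c) • K w hw + c • K 0 h0)) z := by
  have s := H.self z hz
  have n1 := H.den z hz
  rw [H.wco _ z hz, H.wco _ z hz]
  simp only
  rw [ev_sub _ _ s, ev_add _ _ s, ev_smul _ _ s, ev_smul _ _ s, ev_smul _ _ s, ev_smul _ _ s,
    ev_K _ _ s, ev_K _ _ s, map_zero, zero_mul, sub_zero, inv_one]
  set φ : ℂ := (a * z + b) / (c * z + d) with hφ
  have eφ : φ * (c * z + d) = a * z + b := by rw [hφ, div_mul_cancel₀ _ n1]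
  have hne : 1 - conj w * φ ≠ 0 := by
    intro h
    have h1 : ‖conj w * φ‖ = 1 := by
      rw [← sub_eq_zero.1 h, norm_one]
    rw [norm_mul, RCLike.norm_conj] at h1
    have := norm_nonneg w
    have := norm_nonneg φ
    nlinarith
  clear_value φ
  field_simp
  linear_combination (ψ z * conj w) * eφ

theorem funeq (H : Hyp a b c d ψ W) {z w : ℂ} (hz : ‖z‖ < 1) (hw : ‖w‖ < 1) :
    PP a b c d z (conj w) / QQ a b c d z (conj w) *
        ((ψ z * (c * z + d)) * conj (ψ w * (c * w + d))) =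
      PP a b c d 0 (conj w) / QQ a b c d 0 (conj w) *
        ((ψ 0 * (c * 0 + d)) * conj (ψ w * (c * w + d))) +
      PP a b c d z 0 / QQ a b c d z 0 * ((ψ z * (c * z + d)) * conj (ψ 0 * (c * 0 + d))) -
      PP a b c d 0 0 / QQ a b c d 0 0 * ((ψ 0 * (c * 0 + d)) * conj (ψ 0 * (c * 0 + d))) := by
  have h0 : ‖(0 : ℂ)‖ < 1 := by simp
  have key := inner_eq_of_ev (shift_id H hz h0) (shift_id H hw h0)
  simp only [map_sub, map_add, map_smul, inner_sub_left, inner_sub_right, inner_add_left,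
    inner_add_right, inner_smul_left, inner_smul_right, Fval H, map_zero, map_mul,
    Complex.conj_conj] at key
  simp only [PP, map_add, map_mul, map_zero, mul_zero, zero_add, add_zero, sub_zero] at key ⊢
  linear_combination key

/-- **Main theorem.** -/
theorem main (H : Hyp a b c d ψ W) : ∃ k : ℂ, ∀ z : ℂ, ‖z‖ < 1 → ψ z = k / (c * z + d) := by
  by_cases hψ : ∀ z : ℂ, ‖z‖ < 1 → ψ z ≠ 0
  · have hg : ∀ z, ‖z‖ < 1 → ψ z * (c * z + d) ≠ 0 := fun z hz =>
      mul_ne_zero (hψ z hz) (H.den z hz)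
    have := const_of_funeq H.det (fun z t hz ht => QQ_ne H hz ht)
      (fun z => ψ z * (c * z + d)) hg (fun z w hz hw => by
        exact funeq H hz hw)
    refine ⟨ψ 0 * (c * 0 + d), fun z hz => ?_⟩
    rw [eq_div_iff (H.den z hz)]
    exact this z hz
  · push Not at hψ
    obtain ⟨z₀, hz₀, h0⟩ := hψ
    refine ⟨0, fun z hz => ?_⟩
    have hF := Fval H hz₀ hz₀
    rw [h0, zero_mul, zero_mul, zero_div, inner_self_eq_zero] at hF
    have h1 := H.wco (K z₀ hz₀) z hz
    rw [hF] at h1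
    have h2 : ev (0 : H2) z = 0 := by
      rw [← inner_K z hz, inner_zero_right]
    rw [h2, ev_K _ _ (H.self z hz)] at h1
    rw [zero_div]
    rcases mul_eq_zero.1 h1.symm with h3 | h3
    · exact h3
    · exfalso
      have h4 := inv_eq_zero.1 h3
      have h5 : ‖conj z₀ * ((a * z + b) / (c * z + d))‖ = 1 := by
        rw [← sub_eq_zero.1 h4, norm_one]
      rw [norm_mul, RCLike.norm_conj] at h5
      have h6 := H.self z hz
      have := norm_nonneg z₀
      have := norm_nonneg ((a * z + b) / (c * z + d))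
      nlinarith

end Q8.WCO
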