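import Mathlib

set_option autoImplicit false

/-!
The Hardy space `H²` as the space of square summable coefficient sequences, its reproducing
kernels, and bounded weighted composition operators.
-/

namespace Q8.WCO

open scoped ComplexConjugate InnerProductSpace

/-- The Hardy space `H²` of the disc, a function being given by the sequence of its Taylor
coefficients. -/
abbrev H2 : Type := lp (fun _ : ℕ => ℂ) 2

/-- The value at `z` of the function with the Taylor coefficients `f`. -/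
noncomputable def ev (f : H2) (z : ℂ) : ℂ := ∑' n : ℕ, f n * z ^ n

theorem memK {w : ℂ} (hw : ‖w‖ < 1) : Memℓp (fun n : ℕ => conj w ^ n) (2 : ENNReal) := by
  apply memℓp_gen
  have h2 : ∀ n : ℕ, ‖conj w ^ n‖ ^ (2 : ENNReal).toReal = (‖w‖ ^ 2) ^ n := by
    intro n
    rw [norm_pow, RCLike.norm_conj]
    simp only [ENNReal.toReal_ofNat, Real.rpow_ofNat]
    rw [← pow_mul, ← pow_mul, mul_comm]
  simp only [h2]
  apply summable_geometric_of_lt_one (by positivity)
  have : 0 ≤ ‖w‖ := norm_nonneg w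
  nlinarith

/-- The reproducing kernel at `w`. -/
noncomputable def K (w : ℂ) (hw : ‖w‖ < 1) : H2 := ⟨fun n : ℕ => conj w ^ n, memK hw⟩

theorem K_apply (w : ℂ) (hw : ‖w‖ < 1) (n : ℕ) : K w hw n = conj w ^ n := rfl

theorem inner_K (w : ℂ) (hw : ‖w‖ < 1) (f : H2) : ⟪K w hw, f⟫_ℂ = ev f w := by
  rw [lp.inner_eq_tsum, ev]
  refine tsum_congr fun n => ?_
  rw [K_apply, RCLike.inner_apply, map_pow, Complex.conj_conj]

theorem ev_K (w : ℂ) (hw : ‖w‖ < 1) {z : ℂ} (hz : ‖z‖ < 1) :
    ev (K w hw) z = (1 - conj w * z)⁻¹ := by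
  rw [ev]
  have h : ∀ n : ℕ, K w hw n * z ^ n = (conj w * z) ^ n := by
    intro n
    rw [K_apply, mul_pow]
  simp only [h]
  apply tsum_geometric_of_norm_lt_one
  rw [norm_mul, RCLike.norm_conj]
  have h1 := norm_nonneg w
  have h2 := norm_nonneg z
  nlinarith

theorem ev_add (f g : H2) {z : ℂ} (hz : ‖z‖ < 1) : ev (f + g) z = ev f z + ev g z := by
  rw [← inner_K z hz, ← inner_K z hz, ← inner_K z hz, inner_add_right]

theorem ev_sub (f g : H2) {z : ℂ} (hz : ‖z‖ < 1) : ev (f - g) z = ev f z - ev g z := by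
  rw [← inner_K z hz, ← inner_K z hz, ← inner_K z hz, inner_sub_right]

theorem ev_smul (c : ℂ) (f : H2) {z : ℂ} (hz : ‖z‖ < 1) : ev (c • f) z = c * ev f z := by
  rw [← inner_K z hz, ← inner_K z hz, inner_smul_right]

theorem coeff_bdd (f : H2) (n : ℕ) : ‖f n‖ ≤ ‖f‖ := lp.norm_apply_le_norm (by norm_num) f n

/-- A function of `H²` which vanishes on the disc is zero. -/
theorem eq_zero_of_ev (f : H2) (h : ∀ z : ℂ, ‖z‖ < 1 → ev f z = 0) : f = 0 := by
  set p : FormalMultilinearSeries ℂ ℂ ℂ := FormalMultilinearSeries.ofScalars ℂ (fun n => f n)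
    with hpdef
  have hr : (1 : ENNReal) ≤ p.radius := by
    have := FormalMultilinearSeries.le_radius_of_bound p (r := 1) ‖f‖ ?_
    · simpa using this
    · intro n
      rw [NNReal.coe_one, one_pow, mul_one, hpdef, FormalMultilinearSeries.ofScalars_norm]
      exact coeff_bdd f n
  have hp : HasFPowerSeriesOnBall p.sum p 0 p.radius :=
    p.hasFPowerSeriesOnBall (lt_of_lt_of_le one_pos hr)
  have hps : ∀ z, p.sum z = ev f z := by
    intro z
    rw [ev, FormalMultilinearSeries.sum]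
    refine tsum_congr fun n => ?_
    rw [hpdef, FormalMultilinearSeries.ofScalars_apply_eq, smul_eq_mul]
  have h0 : HasFPowerSeriesAt (0 : ℂ → ℂ) p 0 := by
    refine hp.hasFPowerSeriesAt.congr ?_
    filter_upwards [Metric.ball_mem_nhds (0 : ℂ) one_pos] with z hz
    rw [hps, h z (by simpa using hz)]
    rfl
  have h1 : p = 0 := h0.eq_zero
  have h2 : (fun n => f n) = (0 : ℕ → ℂ) := (FormalMultilinearSeries.ofScalars_series_eq_zero ℂ).1 h1
  ext n
  exact congrFun h2 n

theorem memShift (g : H2) :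
    Memℓp (fun n : ℕ => if n = 0 then (0 : ℂ) else g (n - 1)) (2 : ENNReal) := by
  have hg := lp.memℓp g
  have h1 := hg.summable (by norm_num)
  apply memℓp_gen
  rw [← summable_nat_add_iff 1]
  simpa using h1

/-- Multiplication by the coordinate. -/
noncomputable def shift (g : H2) : H2 := ⟨_, memShift g⟩

theorem shift_zero (g : H2) : shift g 0 = 0 := rfl

theorem shift_succ (g : H2) (n : ℕ) : shift g (n + 1) = g n := rfl

theorem summable_ev (f : H2) {z : ℂ} (hz : ‖z‖ < 1) : Summable (fun n : ℕ => f n * z ^ n) := by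
  have := lp.summable_inner (𝕜 := ℂ) (K z hz) f
  refine this.congr fun n => ?_
  rw [K_apply, RCLike.inner_apply, map_pow, Complex.conj_conj]

theorem ev_shift (g : H2) {z : ℂ} (hz : ‖z‖ < 1) : ev (shift g) z = z * ev g z := by
  rw [ev, (summable_ev (shift g) hz).tsum_eq_zero_add, shift_zero, zero_mul, zero_add, ev,
    ← tsum_mul_left]
  refine tsum_congr fun n => ?_
  rw [shift_succ, pow_succ]
  ring

theorem inner_shift (f g : H2) : ⟪shift f, shift g⟫_ℂ = ⟪f, g⟫_ℂ := by
  rw [lp.inner_eq_tsum, lp.inner_eq_tsum,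
    (lp.summable_inner (𝕜 := ℂ) (shift f) (shift g)).tsum_eq_zero_add, shift_zero, inner_zero_left,
    zero_add]
  rfl

/-- If `f = z g` and `f' = z g'` on the disc, then `⟨f, f'⟩ = ⟨g, g'⟩`. -/
theorem inner_eq_of_ev {f g f' g' : H2} (h : ∀ z : ℂ, ‖z‖ < 1 → ev f z = z * ev g z)
    (h' : ∀ z : ℂ, ‖z‖ < 1 → ev f' z = z * ev g' z) : ⟪f, f'⟫_ℂ = ⟪g, g'⟫_ℂ := by
  have e1 : f = shift g := by
    rw [← sub_eq_zero]
    apply eq_zero_of_ev
    intro z hz
    rw [ev_sub _ _ hz, ev_shift _ hz, h z hz, sub_self]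
  have e2 : f' = shift g' := by
    rw [← sub_eq_zero]
    apply eq_zero_of_ev
    intro z hz
    rw [ev_sub _ _ hz, ev_shift _ hz, h' z hz, sub_self]
  rw [e1, e2, inner_shift]

/-- `W` is the weighted composition operator with the weight symbol `ψ` and the composition symbol
`φ`: `(W f)(z) = ψ(z) f(φ(z))` on the disc. -/
def IsWCO (W : H2 →L[ℂ] H2) (ψ φ : ℂ → ℂ) : Prop :=
  ∀ (f : H2) (z : ℂ), ‖z‖ < 1 → ev (W f) z = ψ z * ev f (φ z)

end Q8.WCO
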