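import Pool.Agent.Q8.WCO.Hardy

set_option autoImplicit false

namespace Q8.WCO

open scoped ComplexConjugate InnerProductSpace
open Polynomial

/-- A polynomial which vanishes on the unit disc is zero. -/
theorem poly_eq_zero (p : ℂ[X]) (h : ∀ z : ℂ, ‖z‖ < 1 → p.eval z = 0) : p = 0 := by
  apply Polynomial.eq_zero_of_infinite_isRoot
  have hinf : (Metric.ball (0 : ℂ) 1).Infinite := by
    have h1 : (Metric.ball (0 : ℂ) 1).Nonempty := ⟨0, Metric.mem_ball_self one_pos⟩
    exact (infinite_of_mem_nhds (0 : ℂ) (Metric.ball_mem_nhds _ one_pos))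
  refine hinf.mono fun z hz => ?_
  exact h z (by simpa using hz)

section Alg

variable (a b c d : ℂ)

/-- The Hermitian form of the circle `φ(𝕋)`, pulled back. -/
def PP (z t : ℂ) : ℂ := (d - b * t) * (conj d - conj b * z) - (a * t - c) * (conj a * z - conj c)

/-- The denominator of the kernel of `φ`. -/
def QQ (z t : ℂ) : ℂ :=
  (c * z + d) * (conj c * t + conj d) - (a * z + b) * (conj a * t + conj b)

/-- coefficients -/
def cA : ℂ := c * conj c - a * conj a
def cB : ℂ := c * conj d - a * conj b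
def cB' : ℂ := d * conj c - b * conj a
def cC : ℂ := d * conj d - b * conj b
def eA : ℂ := b * conj b - a * conj a
def eB : ℂ := c * conj a - d * conj b
def eB' : ℂ := a * conj c - b * conj d
def eC : ℂ := d * conj d - c * conj c

theorem QQ_eq (z t : ℂ) : QQ a b c d z t = (cB a b c d * z + cC b d) +
    (cA a c * z + cB' a b c d) * t := by
  simp only [QQ, cA, cB, cB', cC]; ring

theorem PP_eq (z t : ℂ) : PP a b c d z t = (eB a b c d * z + eC c d) +
    (eA a b * z + eB' a b c d) * t := by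
  simp only [PP, eA, eB, eB', eC]; ring

theorem cdet : cA a c * cC b d - cB a b c d * cB' a b c d =
    -((a * d - b * c) * conj (a * d - b * c)) := by
  simp only [cA, cB, cB', cC, map_sub, map_mul]; ring

theorem edet : eA a b * eC c d - eB a b c d * eB' a b c d =
    -((a * d - b * c) * conj (a * d - b * c)) := by
  simp only [eA, eB, eB', eC, map_sub, map_mul]; ring

variable {a b c d}

/-- If `P q₂ - Q p₂` vanishes then `P` is a nonzero multiple of `Q`. -/
theorem proportional (hdet : a * d - b * c ≠ 0)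
    (h : ∀ z : ℂ, (eB a b c d * z + eC c d) * (cA a c * z + cB' a b c d) =
      (eA a b * z + eB' a b c d) * (cB a b c d * z + cC b d)) :
    ∃ r : ℂ, r ≠ 0 ∧ ∀ z t : ℂ, PP a b c d z t = r * QQ a b c d z t := by
  have hΔ : cA a c * cC b d - cB a b c d * cB' a b c d ≠ 0 := by
    rw [cdet]
    exact neg_ne_zero.2 (mul_ne_zero hdet ((_root_.map_ne_zero _).2 hdet))
  have hΔ' : eA a b * eC c d - eB a b c d * eB' a b c d ≠ 0 := by
    rw [edet]
    exact neg_ne_zero.2 (mul_ne_zero hdet ((_root_.map_ne_zero _).2 hdet))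
  have h0 := h 0
  have h1 := h 1
  have h2 := h (-1)
  simp only [PP_eq, QQ_eq]
  revert h0 h1 h2 hΔ hΔ'
  generalize eA a b = γ
  generalize eB a b c d = β
  generalize eB' a b c d = β'
  generalize eC c d = α
  generalize cA a c = A
  generalize cB a b c d = B
  generalize cB' a b c d = B'
  generalize cC b d = C
  intro hΔ hΔ' h0 h1 h2
  have k0 : α * B' = β' * C := by linear_combination h0
  have k2 : β * A = γ * B := by linear_combination (1 / 2) * h1 + (1 / 2) * h2 - h0
  have k1 : β * B' + α * A = γ * C + β' * B := by linear_combination (1 / 2) * h1 - (1 / 2) * h2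
  refine ⟨(α * A - β' * B) / (A * C - B * B'), ?_, ?_⟩
  · intro hr
    rw [div_eq_zero_iff] at hr
    rcases hr with hr | hr
    · -- all the coefficients vanish
      have e1 : α * (A * C - B * B') = 0 := by linear_combination C * hr - B * k0
      have e2 : β * (A * C - B * B') = 0 := by
        linear_combination C * k2 - B * k1 + B * hr
      have hα : α = 0 := (mul_eq_zero.1 e1).resolve_right hΔ
      have hβ : β = 0 := (mul_eq_zero.1 e2).resolve_right hΔ
      apply hΔ'
      rw [hα, hβ]; ring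
    · exact hΔ hr
  · intro z t
    field_simp
    linear_combination z * (C * k2 - B * k1) - B * k0 - t * A * k0 + z * t * (B' * k2 - A * k1)

/-- `P(z, ·)` as a polynomial. -/
noncomputable def pP (a b c d z : ℂ) : ℂ[X] :=
  C (eB a b c d * z + eC c d) + C (eA a b * z + eB' a b c d) * X

/-- `Q(z, ·)` as a polynomial. -/
noncomputable def pQ (a b c d z : ℂ) : ℂ[X] :=
  C (cB a b c d * z + cC b d) + C (cA a c * z + cB' a b c d) * X

theorem eval_pP (z t : ℂ) : (pP a b c d z).eval t = PP a b c d z t := by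
  rw [PP_eq]; simp [pP]

theorem eval_pQ (z t : ℂ) : (pQ a b c d z).eval t = QQ a b c d z t := by
  rw [QQ_eq]; simp [pQ]

theorem cdet_ne (hdet : a * d - b * c ≠ 0) :
    cA a c * cC b d - cB a b c d * cB' a b c d ≠ 0 := by
  rw [cdet]
  exact neg_ne_zero.2 (mul_ne_zero hdet ((_root_.map_ne_zero _).2 hdet))

/-- The discriminant polynomial. -/
noncomputable def pE (a b c d : ℂ) : ℂ[X] :=
  ((C (eB a b c d) * X + C (eC c d)) * (C (cA a c) * X + C (cB' a b c d)) -
    (C (eA a b) * X + C (eB' a b c d)) * (C (cB a b c d) * X + C (cC b d)))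

/-- The second factor. -/
noncomputable def pq (a b c d : ℂ) : ℂ[X] := C (cA a c) * X + C (cB' a b c d)

/-- Independence of three functions `R(z, ·)` -/
theorem indep (hdet : a * d - b * c ≠ 0)
    (hQ : ∀ z t : ℂ, ‖z‖ < 1 → ‖t‖ < 1 → QQ a b c d z t ≠ 0)
    {z₁ z₂ z₃ : ℂ} (h₁ : ‖z₁‖ < 1) (h₂ : ‖z₂‖ < 1) (h₃ : ‖z₃‖ < 1) (h12 : z₁ ≠ z₂) (h13 : z₁ ≠ z₃)
    (hE : (pE a b c d).eval z₁ ≠ 0) (hq : (pq a b c d).eval z₁ ≠ 0) (c₁ c₂ c₃ : ℂ)
    (h : ∀ t : ℂ, ‖t‖ < 1 → c₁ * (PP a b c d z₁ t / QQ a b c d z₁ t) +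
      c₂ * (PP a b c d z₂ t / QQ a b c d z₂ t) + c₃ * (PP a b c d z₃ t / QQ a b c d z₃ t) = 0) :
    c₁ = 0 := by
  have hpoly : C c₁ * pP a b c d z₁ * pQ a b c d z₂ * pQ a b c d z₃ +
      C c₂ * pP a b c d z₂ * pQ a b c d z₁ * pQ a b c d z₃ +
      C c₃ * pP a b c d z₃ * pQ a b c d z₁ * pQ a b c d z₂ = 0 := by
    apply poly_eq_zero
    intro t ht
    have k := h t ht
    have q1 := hQ z₁ t h₁ ht
    have q2 := hQ z₂ t h₂ ht
    have q3 := hQ z₃ t h₃ ht
    simp only [eval_add, eval_mul, eval_C, eval_pP, eval_pQ]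
    field_simp at k
    linear_combination k
  have hq' : cA a c * z₁ + cB' a b c d ≠ 0 := by simpa [pq] using hq
  set t₁ : ℂ := -(cB a b c d * z₁ + cC b d) / (cA a c * z₁ + cB' a b c d) with ht₁
  have e0 : (cA a c * z₁ + cB' a b c d) * t₁ = -(cB a b c d * z₁ + cC b d) := by
    rw [ht₁]; field_simp
  have eQ1 : QQ a b c d z₁ t₁ = 0 := by
    rw [QQ_eq, e0]; ring
  have eP1 : PP a b c d z₁ t₁ ≠ 0 := by
    intro h0
    apply hE
    rw [PP_eq] at h0
    simp only [pE, eval_sub, eval_mul, eval_add, eval_C, eval_X]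
    linear_combination (cA a c * z₁ + cB' a b c d) * h0 - (eA a b * z₁ + eB' a b c d) * e0
  have hne : ∀ y : ℂ, z₁ ≠ y → QQ a b c d y t₁ ≠ 0 := by
    intro y hy h0
    rw [QQ_eq] at h0
    have h1 : (cA a c * cC b d - cB a b c d * cB' a b c d) * (z₁ - y) = 0 := by
      linear_combination (cA a c * z₁ + cB' a b c d) * h0 - (cA a c * y + cB' a b c d) * e0
    rcases mul_eq_zero.1 h1 with h2 | h2
    · exact cdet_ne hdet h2
    · exact hy (sub_eq_zero.1 h2)
  have hev := congrArg (fun p => Polynomial.eval t₁ p) hpoly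
  simp only [eval_add, eval_mul, eval_C, eval_pP, eval_pQ, eval_zero, eQ1] at hev
  have h3 : c₁ * PP a b c d z₁ t₁ * QQ a b c d z₂ t₁ * QQ a b c d z₃ t₁ = 0 := by
    linear_combination hev
  simpa [eP1, hne z₂ h12, hne z₃ h13] using h3

/-- The functional equation forces `g` to be constant. -/
theorem const_of_funeq (hdet : a * d - b * c ≠ 0)
    (hQ : ∀ z t : ℂ, ‖z‖ < 1 → ‖t‖ < 1 → QQ a b c d z t ≠ 0) (g : ℂ → ℂ)
    (hg : ∀ z, ‖z‖ < 1 → g z ≠ 0)
    (hF : ∀ z w : ℂ, ‖z‖ < 1 → ‖w‖ < 1 →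
      PP a b c d z (conj w) / QQ a b c d z (conj w) * (g z * conj (g w)) =
      PP a b c d 0 (conj w) / QQ a b c d 0 (conj w) * (g 0 * conj (g w)) +
      PP a b c d z 0 / QQ a b c d z 0 * (g z * conj (g 0)) -
      PP a b c d 0 0 / QQ a b c d 0 0 * (g 0 * conj (g 0))) :
    ∀ z, ‖z‖ < 1 → g z = g 0 := by
  -- the discriminant vanishes
  have hEq : pE a b c d * pq a b c d = 0 := by
    by_contra hne
    have hfin : {z : ℂ | (pE a b c d * pq a b c d).IsRoot z}.Finite := by
      by_contra hinf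
      exact hne (Polynomial.eq_zero_of_infinite_isRoot _ hinf)
    have hinf : (Metric.ball (0 : ℂ) 1 \ {z : ℂ | (pE a b c d * pq a b c d).IsRoot z}).Infinite :=
      (infinite_of_mem_nhds (0 : ℂ) (Metric.ball_mem_nhds _ one_pos)).diff hfin
    obtain ⟨S, hS, hcard⟩ := hinf.exists_subset_card_eq 3
    obtain ⟨z₁, z₂, z₃, h12, h13, h23, rfl⟩ := Finset.card_eq_three.1 hcard
    have m1 := hS (show z₁ ∈ (({z₁, z₂, z₃} : Finset ℂ) : Set ℂ) by simp)
    have m2 := hS (show z₂ ∈ (({z₁, z₂, z₃} : Finset ℂ) : Set ℂ) by simp)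
    have m3 := hS (show z₃ ∈ (({z₁, z₂, z₃} : Finset ℂ) : Set ℂ) by simp)
    simp only [Set.mem_diff, Metric.mem_ball, dist_zero_right, Set.mem_setOf_eq, IsRoot.def,
      eval_mul, mul_eq_zero, not_or] at m1 m2 m3
    obtain ⟨b1, e1, q1⟩ := m1
    obtain ⟨b2, e2, q2⟩ := m2
    obtain ⟨b3, e3, q3⟩ := m3
    set α : ℂ → ℂ := fun z => 1 / g z with hα
    set β : ℂ → ℂ := fun z => (PP a b c d z 0 / QQ a b c d z 0 * (g z * conj (g 0)) -
      PP a b c d 0 0 / QQ a b c d 0 0 * (g 0 * conj (g 0))) / g z with hβ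
    have hR : ∀ z t : ℂ, ‖z‖ < 1 → ‖t‖ < 1 → PP a b c d z t / QQ a b c d z t =
        α z * (PP a b c d 0 t / QQ a b c d 0 t * g 0) + β z * (1 / conj (g (conj t))) := by
      intro z t hz ht
      have ht' : ‖conj t‖ < 1 := by rwa [RCLike.norm_conj]
      have k := hF z (conj t) hz ht'
      rw [Complex.conj_conj] at k
      have g1 := hg z hz
      have g2 : conj (g (conj t)) ≠ 0 := (_root_.map_ne_zero _).2 (hg _ ht')
      have : PP a b c d z t / QQ a b c d z t =
          (PP a b c d z t / QQ a b c d z t * (g z * conj (g (conj t)))) *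
            (1 / g z) * (1 / conj (g (conj t))) := by
        field_simp
      rw [this, k, hα, hβ]
      field_simp
      ring
    have key : ∀ c₁ c₂ c₃ : ℂ, c₁ * α z₁ + c₂ * α z₂ + c₃ * α z₃ = 0 →
        c₁ * β z₁ + c₂ * β z₂ + c₃ * β z₃ = 0 → c₁ = 0 ∧ c₃ = 0 := by
      intro c₁ c₂ c₃ ha hb
      have hsum : ∀ t : ℂ, ‖t‖ < 1 → c₁ * (PP a b c d z₁ t / QQ a b c d z₁ t) +
          c₂ * (PP a b c d z₂ t / QQ a b c d z₂ t) +
          c₃ * (PP a b c d z₃ t / QQ a b c d z₃ t) = 0 := by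
        intro t ht
        rw [hR z₁ t b1 ht, hR z₂ t b2 ht, hR z₃ t b3 ht]
        linear_combination (PP a b c d 0 t / QQ a b c d 0 t * g 0) * ha +
          (1 / conj (g (conj t))) * hb
      refine ⟨indep hdet hQ b1 b2 b3 h12 h13 e1 q1 c₁ c₂ c₃ hsum,
        indep hdet hQ b3 b1 b2 h13.symm h23.symm e3 q3 c₃ c₁ c₂ ?_⟩
      intro t ht
      linear_combination hsum t ht
    have k1 := (key (α z₂ * β z₃ - α z₃ * β z₂) (α z₃ * β z₁ - α z₁ * β z₃)
      (α z₁ * β z₂ - α z₂ * β z₁) (by ring) (by ring)).2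
    have k2 := (key (α z₂) (-α z₁) 0 (by ring) (by linear_combination -k1)).1
    have : α z₂ ≠ 0 := one_div_ne_zero (hg _ b2)
    exact this k2
  have hE0 : pE a b c d = 0 := by
    rcases mul_eq_zero.1 hEq with h | h
    · exact h
    · exfalso
      apply cdet_ne hdet
      have h0 := congrArg (fun p => Polynomial.eval 0 p) h
      have h1 := congrArg (fun p => Polynomial.eval 1 p) h
      simp only [pq, eval_add, eval_mul, eval_C, eval_X, eval_zero] at h0 h1
      have hB : cB' a b c d = 0 := by linear_combination h0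
      have hA : cA a c = 0 := by linear_combination h1 - h0
      rw [hA, hB]; ring
  obtain ⟨r, hr, hPQ⟩ := proportional hdet (fun z => by
    have h0 := congrArg (fun p => Polynomial.eval z p) hE0
    simp only [pE, eval_sub, eval_add, eval_mul, eval_C, eval_X, eval_zero] at h0
    linear_combination h0)
  intro z hz
  have hR : ∀ z t : ℂ, ‖z‖ < 1 → ‖t‖ < 1 → PP a b c d z t / QQ a b c d z t = r := by
    intro z t hz ht
    rw [hPQ, mul_div_assoc, div_self (hQ z t hz ht), mul_one]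
  have n0 : ‖(0 : ℂ)‖ < 1 := by simp
  have nz : ‖conj z‖ < 1 := by rwa [RCLike.norm_conj]
  have k := hF z z hz hz
  rw [hR _ _ hz nz, hR _ _ n0 nz, hR _ _ hz n0, hR _ _ n0 n0] at k
  have k2 : r * ((g z - g 0) * conj (g z - g 0)) = 0 := by
    rw [map_sub]
    linear_combination k
  have k3 : (g z - g 0) * conj (g z - g 0) = 0 := (mul_eq_zero.1 k2).resolve_left hr
  rcases mul_eq_zero.1 k3 with h | h
  · exact sub_eq_zero.1 h
  · exact sub_eq_zero.1 ((map_eq_zero _).1 h)

end Alg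

end Q8.WCO
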