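import Pool.Agent.Q8.WCO.Final

set_option autoImplicit false

/-!
The definitions of the statement: the Hardy space, the values of its members, and bounded weighted
composition operators.
-/

namespace Q8.WCO

open scoped InnerProductSpace

/-- The Hardy space `H²` of the unit disc: a function is given by the sequence of its Taylor
coefficients, an element of the Hilbert space `ℓ²(ℕ)`. -/
def Hardy : Type := lp (fun _ : ℕ => ℂ) 2

noncomputable instance Hardy.group : NormedAddCommGroup Hardy :=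
  lp.normedAddCommGroup (E := fun _ : ℕ => ℂ) (p := 2)

noncomputable instance Hardy.inner : InnerProductSpace ℂ Hardy :=
  lp.instInnerProductSpace (ι := ℕ) (𝕜 := ℂ) (G := fun _ : ℕ => ℂ)

/-- The `n`-th Taylor coefficient. -/
noncomputable def Hardy.coeff (f : Hardy) (n : ℕ) : ℂ := (show lp (fun _ : ℕ => ℂ) 2 from f) n

/-- The value at the point `z` of the disc: `∑ f n zⁿ`. -/
noncomputable def Hardy.value (f : Hardy) (z : ℂ) : ℂ := ∑' n : ℕ, f.coeff n * z ^ n

/-- The bounded operator `W` on `H²` is the weighted composition operator with the weight symbol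
`ψ` and the composition symbol `φ`: `(W f)(z) = ψ(z) f(φ(z))` for all `f` in `H²` and `|z| < 1`. -/
def IsWeightedComp (W : Hardy →L[ℂ] Hardy) (ψ φ : ℂ → ℂ) : Prop :=
  ∀ (f : Hardy) (z : ℂ), ‖z‖ < 1 → (W f).value z = ψ z * f.value (φ z)

/-- `V` is the adjoint of `W`. -/
def IsAdjoint (V W : Hardy →L[ℂ] Hardy) : Prop := ∀ f g : Hardy, ⟪V f, g⟫_ℂ = ⟪f, W g⟫_ℂ

/-- `W` commutes with its adjoint. -/
def IsNormalOp (W : Hardy →L[ℂ] Hardy) : Prop :=
  ∃ V : Hardy →L[ℂ] Hardy, IsAdjoint V W ∧ ∀ f : Hardy, V (W f) = W (V f)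

/-- `φ(z) = (a z + b) / (c z + d)` is a linear fractional self-map of the unit disc. -/
def IsSelfMap (a b c d : ℂ) : Prop :=
  a * d - b * c ≠ 0 ∧ ∀ z : ℂ, ‖z‖ < 1 → c * z + d ≠ 0 ∧ ‖(a * z + b) / (c * z + d)‖ < 1

theorem main' {a b c d : ℂ} (hφ : IsSelfMap a b c d) (ψ : ℂ → ℂ) (W : Hardy →L[ℂ] Hardy)
    (hW : IsWeightedComp W ψ (fun z => (a * z + b) / (c * z + d))) (hN : IsNormalOp W) :
    ∃ k : ℂ, ∀ z : ℂ, ‖z‖ < 1 → ψ z = k / (c * z + d) := by
  obtain ⟨V, hV, hVW⟩ := hN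
  have hadj : (show H2 →L[ℂ] H2 from V) =
      ContinuousLinearMap.adjoint (show H2 →L[ℂ] H2 from W) := by
    rw [ContinuousLinearMap.eq_adjoint_iff]
    exact hV
  have h := main (a := a) (b := b) (c := c) (d := d) (ψ := ψ)
    (W := (show H2 →L[ℂ] H2 from W)) ⟨hφ.1, fun z hz => (hφ.2 z hz).1, fun z hz => (hφ.2 z hz).2,
      hW, by
        rw [← hadj]
        ext1 f
        exact (hVW f).symm⟩
  exact h

end Q8.WCO
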